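import Pool.Agent.H255R.MR.Map

/-!
# Hodge classes and Tate classes on products of regular surfaces and on products of curves
-/

open CategoryTheory AlgebraicGeometry

universe u v w x

namespace Pool.Agent.Results.MP_6c781a_ag.RegularSurfaces

open Pool.Agent.H914 Pool.Agent.H914.VarClass Pool.Agent.H914.VarClass.Obj Pool.Agent.W492.BB
  Pool.Agent.W550.Corr Pool.Agent.TH133 Pool.Agent.H255R.HR Pool.Agent.H255R.MR

/-- The classes of the family `𝓗` (the `ℚ_ℓ`-combinations of Hodge classes) and those of the family `𝓣`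
(the Tate classes) in `H^{2r}(X, ℚ_ℓ(r))` are the same, for all `r ≤ R`. -/
def HodgeIsTate {k : Type u} [Field k] {𝒱 : VarClass k} {C : TheoryData.{u, v, 0} 𝒱 ℚ}
    {D : ModData.{u, v, x} C} (𝓗 𝓣 : Fam D) (R : ℤ) (X : 𝒱.Obj) : Prop :=
  ∀ r ≤ R, ∀ y : D.A X, 𝓗.Mem X r y ↔ 𝓣.Mem X r y

/-- Consider the smooth projective varieties `X` over `ℚ̄`, the sums `D(X) = ⊕_r H^{2r}(X, ℚ_ℓ(r))`, the
family `𝓗` of the `ℚ_ℓ`-combinations of Hodge classes, and the family `𝓣` of the Tate classes (fixed by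
an open subgroup of the Galois group of a field of definition). Both families are preserved by
pull-backs, push-forwards and products with cycles. More generally, let `𝓗` and `𝓣` be two families
of classes in a module theory `D`.

Let `𝒞` be a class of curves with `HasGalQuotients` (for example all curves, or one hyperelliptic
curve). For all varieties `U` and all `R` and `N` the following statements are equivalent.

1. The two families agree in codimension at most `R` for the varieties `U × A` and `U × A × S`,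
where `A` is a product of at most `N` regular surfaces dominated by products of two curves in `𝒞`,
and `S` is a curve in `𝒞`.
2. The same without the condition that the surfaces be regular.
3. The two families agree in codimension at most `R` for `U × W`, where `W` is a product of at
most `2 N + 1` curves in `𝒞`.
4. The two families agree in codimension at most `R` for all varieties which are dominated by
varieties `U × W` as in 3. -/
theorem result {k : Type u} [Field k] {𝒱 : VarClass k} (C : TheoryData.{u, v, 0} 𝒱 ℚ)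
    [IsChowProj C] {F : Type w} [Field F] [CharZero F] (H : WeilTheoryData.{u, v, w} C F)
    [IsWeilProj H] (D : ModData.{u, v, x} C) (hD : IsModTheory D) (𝓗 𝓣 : Fam D)
    (𝒞 : 𝒱.Obj → Prop) (hG : HasGalQuotients.{u, v, w, x} H 𝒞) (U : 𝒱.Obj) (R : ℤ) (N : ℕ) :
    List.TFAE [
      ∀ m ≤ N, ∀ A : 𝒱.Obj, IsProdOf U (IsRegDominated.{u, v, w, x} H 𝒞) m A →
        HodgeIsTate 𝓗 𝓣 R A ∧ ∀ S : 𝒱.Obj, 𝒞 S → HodgeIsTate 𝓗 𝓣 R (A.prod S),
      ∀ m ≤ N, ∀ A : 𝒱.Obj, IsProdOf U (IsDominated.{u, v, x} C 𝒞) m A →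
        HodgeIsTate 𝓗 𝓣 R A ∧ ∀ S : 𝒱.Obj, 𝒞 S → HodgeIsTate 𝓗 𝓣 R (A.prod S),
      ∀ l ≤ 2 * N + 1, ∀ W : 𝒱.Obj, IsProdOf U 𝒞 l W → HodgeIsTate 𝓗 𝓣 R W,
      ∀ l ≤ 2 * N + 1, ∀ W X : 𝒱.Obj, IsProdOf U 𝒞 l W → IsDominatedBy C W X →
        HodgeIsTate 𝓗 𝓣 R X] :=
  tfaeM (M := D) (M' := D) (𝓜 := 𝓗) (𝓝 := 𝓣) (𝓜' := 𝓣) (𝓝' := 𝓗) hG U R N _ fun _ =>
    ⟨fun h => ⟨fun r hr y hy => (h r hr y).1 hy, fun r hr y hy => (h r hr y).2 hy⟩,
      fun h r hr y => ⟨h.1 r hr y, h.2 r hr y⟩⟩

end Pool.Agent.Results.MP_6c781a_ag.RegularSurfaces
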