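import Pool.Agent.V11219.MinMain

/-!
# Hodge classes and Tate classes on products with powers of varieties which degenerate simultaneously

Let `W` be a Weil cohomology theory with algebraically closed coefficients on a class of smooth
proper varieties, and let `Γ` be a group which acts on the cohomology of the varieties `X_i` and `Z`
with the formal properties of a Galois action (the example: the `ℓ`-adic cohomology of varieties over
a number field `L` and the Galois group of `L`; `χ` is the action on the Tate twists).

Let `C` be a system of classes: for every variety `A` a space `C(A)` of cohomology classes, containing the
classes of algebraic cycles and stable under products, pull-backs and push-forwards (`ClassSystem`). The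
examples: the linear combinations of Hodge classes (by the comparison isomorphism), of absolute Hodge
classes, of motivated classes, of algebraic classes. A Tate class of `A` is a class in `H^(2j)(A)` which is
multiplied by `χ(g)^j` by all `g` in a subgroup of finite index of `Γ`; `TateIn χ C A` is the statement
that all Tate classes of `A` belong to `C(A)`, for Hodge classes the essential part of the
Mumford-Tate conjecture.

Let `X_i` be finitely many varieties of odd dimension for which numerical and homological equivalence
coincide (for example curves, hypersurfaces, complete intersections), whose transcendental cohomology
`T_i` (the orthogonal complement of the algebraic classes) is concentrated in the middle degree and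
irreducible under all subgroups of finite index of `Γ`. Assume:

* **(distinct)** for `i ≠ j` the representations `T_i` and `T_j` of `Γ` are not isomorphic up to scalars;
* **(small defects)** let `N` be the set of the `g ∈ Γ` with `χ(g) = 1` which act trivially on the
  cohomology of `Z` and with `(g - 1) ^ 2 = 0` on **all** `T_j`. For every `i` some `g ∈ N` has defects
  on `T_i` without a common prime factor, or the defect two; here the defects of `g` are the rank of
  `g - 1` on `T_i` and the multiplicities of the nonzero eigenvalues of `(g - 1) (g' - 1)` on `T_i`, for
  `g' ∈ N`. (Or: the conjugates of some `g ∈ N` act irreducibly on `T_i` and the defects of all
  elements of `N` have no common prime factor.)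

The elements of `N` are, for instance, inertia elements at places at which `Z` has good reduction and
the `X_j` have ordinary double points, or are curves with stable reduction; all `X_j` may have bad
reduction at the same places, even at just one.

Let `T` be a product of `Z` with arbitrary powers of the `X_i`. Then **all Tate classes of `T` belong to
`C(T)` if and only if all Tate classes of `Z` belong to `C(Z)`**. For Hodge classes: all Tate classes on
`T` (in all degrees) are linear combinations of Hodge classes if and only if this is true for `Z`. The
powers of `Y = Z × ∏ X_i ^ (n_i)` are such products, with a power of `Z` instead of `Z` (the elements of
`N` act trivially on its cohomology, too). So the surjectivity in the `ℓ`-adic Mumford-Tate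
conjecture for `Y` is equivalent to the one for `Z`; if `Z` is a point it holds for `Y`, for `Z` an
abelian variety this means: for `Y` if and only if for `Z`, where nothing is assumed on `Z`. It is NOT
assumed that the Mumford-Tate conjecture is known for the `X_i`.

The proof is the one of the result on the Tate conjecture (`MP_0d42ed_ag.SemistableProducts`): a Tate
class on the product of a power of `X_i` with `A` is a combination of products of algebraic classes of
the power and Tate classes of `A`, by the extremal elements of the Lie algebra of the tuples of
operators on the `T_j` which kill all equivariant multilinear maps to the cohomology of `Z`.
-/

universe u

namespace Pool.Agent.Results.MP_6c781a_ag.SemistableProducts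

open Pool.Agent.H914 Pool.Agent.H281R3.HT Pool.Agent.TH125.Gal Pool.Agent.V11219.Min
  Pool.Agent.V11219.Cls

/-- **Hodge classes and Tate classes on products with powers.** -/
theorem result {k : Type u} [Field k] {𝒱 : VarClass k} {ops : CycleOps 𝒱}
    (W : WeilCohomology.{u, 0} ops) [IsAlgClosed W.K] {Γ : Type} [Group Γ] (χ : CharOf W Γ)
    (C : Classes W) (hC : ClassSystem W C)
    {ι : Type} [Finite ι] (X : ι → GVar W Γ) (Z : GVar W Γ) (h : Family χ X Z) (S : Set ι)
    (T : GVar W Γ) (hT : Tower X Z S T) : TateIn χ C T ↔ TateIn χ C Z := by
  classical
  have := Fintype.ofFinite ι
  exact cls_sst hC h.vars (hT.gTower h.vars.odd)

end Pool.Agent.Results.MP_6c781a_ag.SemistableProducts
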